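import Mathlib
import Pool.Agent.V11212.SL.Fin

/-!
MP_7af359_nt, Q1 (affirmative): the condition that all vertices of a candidate `D` lie in one
invariant cone follows from the other conditions.
-/

set_option autoImplicit false

open Set Matrix

namespace Pool.Agent.Results.MP_7af359_nt.ConditionSeven

open Pool.Agent.V11212.SL (E3 Bas castV castSet move Bf IsPolygon IsXiBasis Candidate)

/-- The open invariant cone of the eigenbasis `e` with signs `ε`. -/
def InvariantCone (e : Bas) (ε : Fin 3 → ℝ) : Set E3 :=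
  {x | ∀ k, 0 < ε k * e.coord k x}

/-- Let `A` be an integer `3 × 3` matrix whose characteristic polynomial is irreducible over `ℚ`
and which has a basis `e` of real eigenvectors, let `B1, B2` be a basis of `Ξ₊(A)` and let `D` be a
candidate, given by the set `F` of the vertex sets of its faces. Then all vertices of `D` lie in
one invariant cone. -/
theorem result (A : Matrix (Fin 3) (Fin 3) ℤ)
    (hirr : Irreducible (A.map (Int.cast : ℤ → ℚ)).charpoly)
    (lam : Fin 3 → ℝ) (e : Bas) (he : ∀ k, Bf A (e k) = lam k • e k)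
    (B1 B2 : GL (Fin 3) ℤ) (hB : IsXiBasis A B1 B2)
    (F : Finset (Finset (Fin 3 → ℤ))) (hF : Candidate B1 B2 F) :
    ∃ ε : Fin 3 → ℝ, (∀ k, ε k = 1 ∨ ε k = -1) ∧
      ∀ S ∈ F, ∀ v ∈ S, castV v ∈ InvariantCone e ε := by
  obtain ⟨ε, h1, h2⟩ := Pool.Agent.V11212.SL.main hirr he hB hF
  refine ⟨ε, h1, ?_⟩
  intro S hS v hv
  apply h2
  rw [Set.mem_iUnion₂]
  exact ⟨S, hS, subset_convexHull ℝ _ ⟨v, hv, rfl⟩⟩

end Pool.Agent.Results.MP_7af359_nt.ConditionSeven
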